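import Pool.Agent.RCM.Stmts2
import Pool.Agent.Helper64_RB3.Num

/-!
# Squad RCM, row TRQ: the potential of Helper64_RB3 in the language of RCM
-/

set_option autoImplicit false

open Set

namespace Pool.Agent.RCM.H21

open Pool.Agent.RCM Helper64RB3

universe u

/-- the criterion of `Helper64_RB3` excludes that at most `B` elements are moved -/
theorem crit_lb {E : Type u} {K : Type} [Finite E] {M N : Matroid E} {κ : E → K}
    {s : ℕ} {R : Type u} {r : E → R} (hcol : Col M N κ s) (hM : ∀ I, M.Indep I ↔ InjOn r I)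
    {t : ℕ} {P : Set E} {X : Set K} {T : Set E} {z B : ℕ} (hmx : Mx M N κ t)
    (hst : St M N κ P X t T) (hun : (Un κ X T).Nonempty) (hz : t + P.ncard + z ≤ s)
    (hcrit : Crit z B) : B < (T \ Sta M N κ P X T).ncard := by
  classical
  obtain ⟨hft⟩ := nonempty_fintype E
  obtain ⟨T0, hT0⟩ : ∃ T0 : Finset E, (T0 : Set E) = T :=
    ⟨(Set.toFinite T).toFinset, Set.Finite.coe_toFinset _⟩
  obtain ⟨P1, hP1⟩ : ∃ P1 : Finset E, (P1 : Set E) = P :=
    ⟨(Set.toFinite P).toFinset, Set.Finite.coe_toFinset _⟩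
  obtain ⟨P0, hP0⟩ : ∃ P0 : Finset R, P0 = P1.image r := ⟨_, rfl⟩
  obtain ⟨S, hS⟩ : ∃ S : K → Finset E, ∀ i, S i = Finset.univ.filter (fun x => κ x = i) :=
    ⟨_, fun _ => rfl⟩
  have hmemS : ∀ i x, x ∈ S i ↔ κ x = i := by
    intro i x
    rw [hS, Finset.mem_filter]
    exact ⟨fun h => h.2, fun h => ⟨Finset.mem_univ _, h⟩⟩
  have hcoeS : ∀ i, (S i : Set E) = κ ⁻¹' {i} := by
    intro i
    ext x
    rw [Finset.mem_coe, hmemS]
    rfl
  have H : Hyp N κ r S t := by
    refine ⟨fun i x hx => (hmemS i x).1 hx, fun i => ?_, fun i => ?_, fun T' hT' => ?_⟩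
    · rw [hcoeS]
      exact (hM _).1 (hcol.indM i)
    · rw [hcoeS]
      exact hcol.indN i
    · have h1 := hmx (T' : Set E) ⟨(hM _).2 hT'.rowinj, hT'.ind, hT'.colinj⟩
      rwa [Set.ncard_coe_finset] at h1
  have hfr := (hM _).1 hst.fr
  have hmemP0 : ∀ ρ, ρ ∈ P0 ↔ ∃ p ∈ P, r p = ρ := by
    intro ρ
    rw [hP0, Finset.mem_image]
    constructor
    · rintro ⟨p, hp, h⟩
      exact ⟨p, by rw [← hP1]; exact Finset.mem_coe.2 hp, h⟩
    · rintro ⟨p, hp, h⟩
      exact ⟨p, by rw [← hP1] at hp; exact Finset.mem_coe.1 hp, h⟩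
  have hmemT0 : ∀ y, y ∈ T0 ↔ y ∈ T := by
    intro y
    rw [← hT0, Finset.mem_coe]
  obtain ⟨c0, hc0X, hc0T⟩ := hun
  have hc0T' : c0 ∉ T0.image κ := by
    intro h
    obtain ⟨y, hy, hyc⟩ := Finset.mem_image.1 h
    exact hc0T ⟨y, (hmemT0 y).1 hy, hyc⟩
  obtain ⟨K1, hK1⟩ : ∃ K1 : Finset K, K1 = insert c0 (T0.image κ) := ⟨_, rfl⟩
  have hK1X : ∀ c ∈ K1, c ∉ X := by
    intro c hc
    rw [hK1] at hc
    rcases Finset.mem_insert.1 hc with rfl | hc
    · exact hc0X
    · obtain ⟨y, hy, rfl⟩ := Finset.mem_image.1 hc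
      exact hst.col y ((hmemT0 y).1 hy)
  have hT0c : T0.card = t := by
    rw [← Set.ncard_coe_finset, hT0]
    exact hst.card
  have hS0 : State N κ r S t P0 K1 T0 := by
    refine ⟨⟨fun y _ => (hmemS _ _).2 rfl, ?_, ?_, ?_⟩, ?_, ?_, hT0c⟩
    · rw [hT0]
      exact hst.ri.inj
    · rw [hT0]
      exact hfr.mono subset_union_left
    · rw [hT0]
      exact hst.ri.indN
    · intro y hy h
      obtain ⟨p, hp, hpy⟩ := (hmemP0 _).1 h
      have hy' := (hmemT0 y).1 hy
      have h1 : p = y := hfr (Or.inr hp) (Or.inl hy') hpy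
      exact Set.disjoint_left.1 hst.dj hy' (h1 ▸ hp)
    · intro y hy
      rw [hK1]
      exact Finset.mem_insert_of_mem (Finset.mem_image_of_mem κ hy)
  have hK1c : K1.card = t + 1 := by
    rw [hK1, Finset.card_insert_of_notMem hc0T', Finset.card_image_of_injOn hS0.good.colinj, hT0c]
  -- reachable states
  have hreach : ∀ T', Reach N κ r S P0 K1 T0 T' → Rc M N κ P X T (T' : Set E) := by
    intro T' h
    induction h with
    | refl =>
      rw [hT0]
      exact Relation.ReflTransGen.refl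
    | @tail A B hA hm ih =>
      refine Relation.ReflTransGen.tail ih ?_
      have hAs := reach_state hS0 hA
      obtain ⟨x, y, -, hxK, hxc, hxr, hxP, hy, hind, rfl⟩ := hm
      have hxr' : ∀ a ∈ A, r a ≠ r x := fun a ha h => hxr (Finset.mem_image.2 ⟨a, ha, h⟩)
      have hxP' : ∀ p ∈ P, r p ≠ r x := fun p hp h => hxP ((hmemP0 _).2 ⟨p, hp, h⟩)
      have hAP : ∀ a ∈ A, ∀ p ∈ P, r p ≠ r a := fun a ha p hp h =>
        hAs.avP a ha ((hmemP0 _).2 ⟨p, hp, h⟩)
      have hinj : InjOn r ((A : Set E) ∪ P) := by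
        rintro a (ha | ha) b (hb | hb) hab
        · exact hAs.good.rowinj ha hb hab
        · exact absurd hab.symm (hAP a ha b hb)
        · exact absurd hab (hAP b hb a ha)
        · exact hfr (Or.inr ha) (Or.inr hb) hab
      have hxI : x ∉ (A : Set E) ∪ P := by
        rintro (h | h)
        · exact hxr' x h rfl
        · exact hxP' x h rfl
      have hinj' : InjOn r (insert x ((A : Set E) ∪ P)) := by
        rintro a (rfl | ha) b (rfl | hb) hab
        · rfl
        · rcases hb with hb | hb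
          · exact absurd hab.symm (hxr' b hb)
          · exact absurd hab.symm (hxP' b hb)
        · rcases ha with ha | ha
          · exact absurd hab (hxr' a ha)
          · exact absurd hab (hxP' a ha)
        · exact hinj ha hb hab
      have hins := (hM _).2 hinj'
      refine ⟨x, y, hy, ?_, hK1X _ hxK, ?_, ?_, ?_⟩
      · rintro ⟨w, hw, hwc⟩
        exact hxc (Finset.mem_image.2 ⟨w, hw, hwc⟩)
      · exact (((hM _).2 hinj).notMem_closure_iff_of_notMem hxI
          (hins.subset_ground (mem_insert _ _))).2 hins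
      · have hco : ((insert x (A.erase y) : Finset E) : Set E) =
            insert x ((A : Set E) \ {y}) := by
          rw [Finset.coe_insert, Finset.coe_erase]
        rw [hco] at hind
        have hA' : N.Indep ((A : Set E) \ {y}) := hAs.good.ind.subset sdiff_subset
        exact (hA'.notMem_closure_iff_of_notMem (fun h => hxI (Or.inl h.1))
          (hind.subset_ground (mem_insert _ _))).2 hind
      · rw [Finset.coe_insert, Finset.coe_erase]
  obtain ⟨h, hh⟩ : ∃ h, h = (Lv N κ r S P0 K1 T0).card := ⟨_, rfl⟩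
  have hle : h ≤ (T \ Sta M N κ P X T).ncard := by
    rw [hh, ← Set.ncard_coe_finset]
    refine Set.ncard_le_ncard ?_ (Set.toFinite _)
    intro y hy
    have hy1 := Finset.mem_sdiff.1 (Finset.mem_coe.1 hy)
    refine ⟨(hmemT0 y).1 hy1.1, fun hs => hy1.2 (mem_Fx.2 fun T' hT' => ?_)⟩
    exact Finset.mem_coe.1 (hs _ (hreach T' hT'))
  by_contra hcon
  rw [not_lt] at hcon
  have hhB : h ≤ B := hle.trans hcon
  -- sizes
  have hzz : ∀ c, t + z ≤ sz r S P0 c := by
    intro c
    have h1 := card_filter_row H c P0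
    have h2 : (S c).card = (κ ⁻¹' {c}).ncard := by
      rw [← hcoeS, Set.ncard_coe_finset]
    have h3 := hcol.card c
    have h4 : P0.card ≤ P.ncard := by
      rw [hP0, ← hP1, Set.ncard_coe_finset]
      exact Finset.card_image_le
    have h5 := Finset.card_filter_add_card_filter_not (s := S c) (fun x => r x ∈ P0)
    unfold sz
    omega
  obtain ⟨c, c', hc0, hcc, hcB, hprod⟩ := hcrit
  have hpot := pot H hc0 hcc hcB (by omega : t < K1.card) _ P0 T0 hS0 rfl (by omega)
  have hcPl := card_Pl_add hS0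
  have hcFx := card_Fx_Lv hS0
  have hc' : 0 ≤ c' := hc0.trans hcc
  have hsum : ∑ s ∈ Helper64RB3.Pl N κ r S P0 K1 T0, ph c' (sz r S P0 s - t) ≤
      ((h : ℝ) + 1) * ph c' z := by
    have h1 : ∑ s ∈ Helper64RB3.Pl N κ r S P0 K1 T0, ph c' (sz r S P0 s - t) ≤
        ∑ s ∈ Helper64RB3.Pl N κ r S P0 K1 T0, ph c' z := by
      apply Finset.sum_le_sum
      intro s _
      apply ph_antitone hc'
      have := hzz s
      omega
    rw [Finset.sum_const, nsmul_eq_mul] at h1
    have h2 : (Helper64RB3.Pl N κ r S P0 K1 T0).card = h + 1 := by omega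
    rw [h2] at h1
    push_cast at h1
    exact h1
  rw [← hh] at hpot
  have hone : (1 : ℝ) ≤ 1 + c := by linarith
  have h1 : (1 : ℝ) ≤ (1 + c) ^ h * (((h : ℝ) + 1) * ph c' z) :=
    hpot.trans (mul_le_mul_of_nonneg_left hsum (by positivity))
  have h2 := ph_inv hc' z
  have h3 := ph_pos hc' z
  have h4 : (1 + c) ^ h * ((h : ℝ) + 1) ≤ ((B : ℝ) + 1) * (1 + c) ^ B := by
    have h5 : (1 + c) ^ h ≤ (1 + c) ^ B := pow_le_pow_right₀ hone hhB
    have h6 : (h : ℝ) + 1 ≤ (B : ℝ) + 1 := by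
      have : (h : ℝ) ≤ B := by exact_mod_cast hhB
      linarith
    calc (1 + c) ^ h * ((h : ℝ) + 1) ≤ (1 + c) ^ B * ((B : ℝ) + 1) :=
        mul_le_mul h5 h6 (by positivity) (by positivity)
      _ = _ := by ring
  have h5 : (1 + c) ^ h * ((h : ℝ) + 1) * ph c' z < 1 := by
    calc (1 + c) ^ h * ((h : ℝ) + 1) * ph c' z ≤ ((B : ℝ) + 1) * (1 + c) ^ B * ph c' z :=
        mul_le_mul_of_nonneg_right h4 h3.le
      _ < (∏ j ∈ Finset.range z, (1 + c' * ((j : ℝ) + 1))) * ph c' z :=
        mul_lt_mul_of_pos_right hprod h3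
      _ = 1 := h2
  nlinarith

theorem trq : TrqStmt.{u} := by
  intro E K _ _ M N κ s R _ r hcol hM t P X T z hmx hst hun hz
  show (z ^ 2 + 3) / 4 ≤ _
  rcases Nat.eq_zero_or_pos z with rfl | hz0
  · exact Nat.zero_le _
  · have h1 := crit_lb hcol hM hmx hst hun hz
      (crit_explicit (z := z) (B := (z ^ 2 + 3) / 4 - 1) hz0 (by
        have : 1 ≤ z ^ 2 := Nat.one_le_pow _ _ hz0
        omega))
    omega

end Pool.Agent.RCM.H21
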